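import Pool.Agent.Lib_helper64.A1.Ten

/-!
# MP_859019_mp, project A1: scalar first factor in `In`
-/

set_option autoImplicit false
set_option linter.unusedSectionVars false
set_option linter.unusedVariables false

open scoped BigOperators ComplexOrder Kronecker MatrixOrder Topology
open MeasureTheory Set Matrix Filter

namespace Pool.Agent.A1W

open Pool.Agent.RC Pool.Agent.RC.DEC Pool.Agent.A1

variable {ι κ : Type} [Fintype ι] [DecidableEq ι] [Fintype κ] [DecidableEq κ]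

theorem tn_submatrix (e : κ ≃ ι) (A D : Matrix ι ι ℂ) (n : ℕ) (r : ℝ) :
    tn (A.submatrix e e) (D.submatrix e e) n r = tn A D n r := by
  have h1 : Res (A.submatrix e e) r = (Res A r).submatrix e e := by
    unfold Res
    rw [← Matrix.inv_submatrix_equiv]
    congr 1
    ext i j
    simp only [Matrix.add_apply, Matrix.smul_apply, Matrix.submatrix_apply, Matrix.one_apply,
      e.injective.eq_iff]
  have h2 : Res (A.submatrix e e) r * D.submatrix e e = (Res A r * D).submatrix e e := by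
    rw [h1, Matrix.submatrix_mul_equiv]
  have h3 : ∀ (M : Matrix ι ι ℂ) (k : ℕ), (M.submatrix e e) ^ k = (M ^ k).submatrix e e := by
    intro M k
    induction k with
    | zero => rw [pow_zero, pow_zero, Matrix.submatrix_one_equiv]
    | succ k ih => rw [pow_succ, pow_succ, ih, Matrix.submatrix_mul_equiv]
  unfold tn
  rw [h2, h3]
  congr 1
  unfold Matrix.trace
  exact Equiv.sum_comp e fun i => ((Res A r * D) ^ n) i i

theorem In_submatrix (α : ℝ) (e : κ ≃ ι) (A D : Matrix ι ι ℂ) (n : ℕ) :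
    In α (A.submatrix e e) (D.submatrix e e) n = In α A D n := by
  unfold In
  simp only [tn_submatrix]

theorem one_kron_unit (A : Matrix κ κ ℂ) :
    (1 : Matrix Unit Unit ℂ) ⊗ₖ A = A.submatrix (Equiv.punitProd κ) (Equiv.punitProd κ) := by
  ext ⟨i, k⟩ ⟨j, l⟩
  simp [Matrix.kroneckerMap_apply]

theorem smul_kron_unit (a : ℂ) (D : Matrix κ κ ℂ) :
    (a • (1 : Matrix Unit Unit ℂ)) ⊗ₖ D =
      (a • D).submatrix (Equiv.punitProd κ) (Equiv.punitProd κ) := by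
  ext ⟨i, k⟩ ⟨j, l⟩
  simp [Matrix.kroneckerMap_apply]

theorem tn_smul_right (a : ℝ) (A D : Matrix ι ι ℂ) (n : ℕ) (r : ℝ) :
    tn A ((a : ℂ) • D) n r = a ^ n * tn A D n r := by
  unfold tn
  rw [Matrix.mul_smul, smul_pow, Matrix.trace_smul, smul_eq_mul, ← Complex.ofReal_pow,
    Complex.re_ofReal_mul]

theorem In_smul_right (α a : ℝ) (A D : Matrix ι ι ℂ) (n : ℕ) :
    In α A ((a : ℂ) • D) n = a ^ n * In α A D n := by
  unfold In
  rw [← integral_const_mul]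
  congr 1
  funext r
  rw [tn_smul_right]
  ring

/-- `In` of `(1 ⊗ A₂, a ⊗ D₂)` -/
theorem In_unit_kron (α a : ℝ) (A D : Matrix κ κ ℂ) (n : ℕ) :
    In α ((1 : Matrix Unit Unit ℂ) ⊗ₖ A) (((a : ℂ) • (1 : Matrix Unit Unit ℂ)) ⊗ₖ D) n =
      a ^ n * In α A D n := by
  rw [one_kron_unit, smul_kron_unit, In_submatrix, In_smul_right]

theorem tn_unit {r : ℝ} (hr : 0 < r) (n : ℕ) :
    tn (1 : Matrix Unit Unit ℂ) (1 : Matrix Unit Unit ℂ) n r = ((1 + r) ^ n)⁻¹ := by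
  have h1 : Res (1 : Matrix Unit Unit ℂ) r = ((1 + r : ℝ) : ℂ)⁻¹ • (1 : Matrix Unit Unit ℂ) := by
    unfold Res
    apply Matrix.inv_eq_right_inv
    have h2 : ((1 + r : ℝ) : ℂ) ≠ 0 := by
      have : (1 + r : ℝ) ≠ 0 := by positivity
      exact_mod_cast this
    have h3 : (1 : Matrix Unit Unit ℂ) + (r : ℂ) • (1 : Matrix Unit Unit ℂ) =
        ((1 + r : ℝ) : ℂ) • (1 : Matrix Unit Unit ℂ) := by
      push_cast
      rw [add_smul, one_smul]
    rw [h3, Matrix.smul_mul, Matrix.mul_smul, smul_smul, mul_inv_cancel₀ h2, one_smul, mul_one]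
  unfold tn
  rw [h1, Matrix.mul_one, smul_pow, one_pow, Matrix.trace_smul, Matrix.trace_one, smul_eq_mul,
    ← Complex.ofReal_inv, ← Complex.ofReal_pow, Complex.re_ofReal_mul, inv_pow]
  simp

/-- `In` of the scalar pair `(1, a)` -/
theorem In_unit (α a : ℝ) (n : ℕ) :
    In α (1 : Matrix Unit Unit ℂ) ((a : ℂ) • (1 : Matrix Unit Unit ℂ)) n = a ^ n * bet α n := by
  rw [In_smul_right]
  congr 1
  unfold In bet
  apply setIntegral_congr_fun measurableSet_Ioi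
  intro r hr
  change r ^ (α - 1) * tn (1 : Matrix Unit Unit ℂ) 1 n r = r ^ (α - 1) * ((1 + r) ^ n)⁻¹
  rw [tn_unit hr]

theorem spair_unit {a : ℝ} (h1 : -1 < a) (h2 : a < 1) :
    SPair (1 : Matrix Unit Unit ℂ) ((a : ℂ) • (1 : Matrix Unit Unit ℂ)) := by
  have h : ∀ x : ℝ, 0 < x → ((x : ℂ) • (1 : Matrix Unit Unit ℂ)).PosDef := by
    intro x hx
    exact Matrix.PosDef.one.smul (by exact_mod_cast hx)
  constructor
  · have e : (1 : Matrix Unit Unit ℂ) - (a : ℂ) • 1 = ((1 - a : ℝ) : ℂ) • 1 := by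
      push_cast; rw [sub_smul, one_smul]
    rw [e]
    exact h _ (by linarith)
  · have e : (1 : Matrix Unit Unit ℂ) + (a : ℂ) • 1 = ((1 + a : ℝ) : ℂ) • 1 := by
      push_cast; rw [add_smul, one_smul]
    rw [e]
    exact h _ (by linarith)

/-- strict pairs are pairs -/
theorem _root_.Pool.Agent.A1.SPair.isPair {A D : Matrix ι ι ℂ} (h : SPair A D) : IsPair A D where
  pos := h.posDef
  sub := h.sub.posSemidef
  add := h.add.posSemidef

theorem spair_kron_isPair {A₁ D₁ : Matrix ι ι ℂ} {A₂ D₂ : Matrix κ κ ℂ} (h₁ : SPair A₁ D₁)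
    (h₂ : SPair A₂ D₂) : IsPair (A₁ ⊗ₖ A₂) (D₁ ⊗ₖ D₂) :=
  h₁.isPair.kron h₂.isPair

/-- the pair `(A₁ ⊗ A₂, D₁ ⊗ A₂)` is a pair -/
theorem spair_kron_right_isPair {A₁ D₁ : Matrix ι ι ℂ} {A₂ : Matrix κ κ ℂ} (h₁ : SPair A₁ D₁)
    (h₂ : A₂.PosDef) : IsPair (A₁ ⊗ₖ A₂) (D₁ ⊗ₖ A₂) where
  pos := h₁.posDef.kronecker h₂
  sub := by
    have e : A₁ ⊗ₖ A₂ - D₁ ⊗ₖ A₂ = (A₁ - D₁) ⊗ₖ A₂ := by
      ext i j; simp [Matrix.kroneckerMap_apply, sub_mul]
    rw [e]
    exact (h₁.sub.kronecker h₂).posSemidef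
  add := by
    have e : A₁ ⊗ₖ A₂ + D₁ ⊗ₖ A₂ = (A₁ + D₁) ⊗ₖ A₂ := by
      ext i j; simp [Matrix.kroneckerMap_apply, add_mul]
    rw [e]
    exact (h₁.add.kronecker h₂).posSemidef

end Pool.Agent.A1W
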