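import Pool.Agent.Lib_helper59.A1.Defs
import Pool.Agent.Lib_helper95.RC.Final02
import Pool.Agent.Lib_helper92.RC.Dec

/-!
# MP_859019_mp, project A1, block TEN

`In` of `(A₁ ⊗ A₂, D₁ ⊗ A₂)` and the sum of the two `GG`.
-/

set_option autoImplicit false
set_option linter.unusedSectionVars false
set_option linter.unusedVariables false

open scoped BigOperators ComplexOrder Kronecker MatrixOrder Topology
open MeasureTheory Set Matrix Filter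

namespace Pool.Agent.A1W

open Pool.Agent.RC Pool.Agent.RC.DEC

variable {ι κ : Type} [Fintype ι] [DecidableEq ι] [Fintype κ] [DecidableEq κ]

theorem ten_det_unit {A : Matrix ι ι ℂ} (hA : A.PosDef) {r : ℝ} (hr : 0 ≤ r) :
    IsUnit (A + (r : ℂ) • (1 : Matrix ι ι ℂ)).det := by
  have h1 : (A + (r : ℂ) • (1 : Matrix ι ι ℂ)).PosDef := by
    have h2 : ((r : ℂ) • (1 : Matrix ι ι ℂ)).PosSemidef :=
      Matrix.PosSemidef.one.smul (by exact_mod_cast hr)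
    exact hA.add_posSemidef h2
  exact isUnit_iff_ne_zero.2 h1.det_pos.ne'

theorem tn_smul_pair {A : Matrix ι ι ℂ} (hA : A.PosDef) (D : Matrix ι ι ℂ) (n : ℕ) {b r : ℝ}
    (hb : 0 < b) (hr : 0 ≤ r) :
    tn ((b : ℂ) • A) ((b : ℂ) • D) n r = tn A D n (r / b) := by
  have hb' : (b : ℂ) ≠ 0 := by exact_mod_cast hb.ne'
  have h0 : 0 ≤ r / b := by positivity
  have h1 : (b : ℂ) • A + (r : ℂ) • (1 : Matrix ι ι ℂ) =
      (b : ℂ) • (A + ((r / b : ℝ) : ℂ) • (1 : Matrix ι ι ℂ)) := by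
    rw [smul_add, smul_smul]
    congr 2
    push_cast
    field_simp
  have h2 : Res ((b : ℂ) • A) r * ((b : ℂ) • D) = Res A (r / b) * D := by
    unfold Res
    rw [h1]
    have h3 : ((b : ℂ) • (A + ((r / b : ℝ) : ℂ) • (1 : Matrix ι ι ℂ)))⁻¹ =
        (b : ℂ)⁻¹ • (A + ((r / b : ℝ) : ℂ) • (1 : Matrix ι ι ℂ))⁻¹ := by
      apply Matrix.inv_eq_right_inv
      rw [Matrix.smul_mul, Matrix.mul_smul, smul_smul, mul_inv_cancel₀ hb', one_smul,
        Matrix.mul_nonsing_inv _ (ten_det_unit hA h0)]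
    rw [h3, Matrix.smul_mul, Matrix.mul_smul, smul_smul, inv_mul_cancel₀ hb', one_smul]
  unfold tn
  rw [h2]

theorem kron_dg_eq (A : Matrix ι ι ℂ) (b : κ → ℝ) :
    A ⊗ₖ dg b = blockDiagonal fun k => (b k : ℂ) • A := by
  ext ⟨i, k⟩ ⟨j, l⟩
  rw [Matrix.kroneckerMap_apply, Matrix.blockDiagonal_apply]
  unfold dg
  by_cases h : k = l
  · subst h
    simp [mul_comm]
  · simp [h]

theorem tn_kron_dg {A : Matrix ι ι ℂ} (hA : A.PosDef) (D : Matrix ι ι ℂ) {b : κ → ℝ}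
    (hb : ∀ k, 0 < b k) (n : ℕ) {r : ℝ} (hr : 0 ≤ r) :
    tn (A ⊗ₖ dg b) (D ⊗ₖ dg b) n r = ∑ k, tn A D n (r / b k) := by
  have h1 : Res (A ⊗ₖ dg b) r = blockDiagonal fun k => Res ((b k : ℂ) • A) r := by
    unfold Res
    apply Matrix.inv_eq_right_inv
    have e1 : A ⊗ₖ dg b + (r : ℂ) • (1 : Matrix (ι × κ) (ι × κ) ℂ) =
        blockDiagonal fun k => (b k : ℂ) • A + (r : ℂ) • (1 : Matrix ι ι ℂ) := by
      rw [kron_dg_eq]
      ext ⟨i, k⟩ ⟨j, l⟩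
      simp only [Matrix.add_apply, Matrix.smul_apply, Matrix.blockDiagonal_apply, Matrix.one_apply,
        Prod.mk.injEq, smul_eq_mul]
      by_cases h : k = l
      · subst h; simp
      · simp [h]
    rw [e1, ← Matrix.blockDiagonal_mul]
    have e2 : (fun k => ((b k : ℂ) • A + (r : ℂ) • (1 : Matrix ι ι ℂ)) *
        ((b k : ℂ) • A + (r : ℂ) • (1 : Matrix ι ι ℂ))⁻¹) = fun _ : κ => (1 : Matrix ι ι ℂ) := by
      funext k
      apply Matrix.mul_nonsing_inv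
      apply ten_det_unit _ hr
      exact hA.smul (by exact_mod_cast hb k)
    rw [e2]
    exact Matrix.blockDiagonal_one
  unfold tn
  rw [h1, kron_dg_eq D b, ← Matrix.blockDiagonal_mul, ← Matrix.blockDiagonal_pow,
    Matrix.trace_blockDiagonal, Complex.re_sum]
  refine Finset.sum_congr rfl fun k _ => ?_
  exact tn_smul_pair hA D n (hb k) hr

theorem integral_scale (α : ℝ) (f : ℝ → ℝ) {b : ℝ} (hb : 0 < b) :
    ∫ r in Ioi (0 : ℝ), r ^ (α - 1) * f (r / b) =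
      b ^ α * ∫ r in Ioi (0 : ℝ), r ^ (α - 1) * f r := by
  have hbi : 0 < b⁻¹ := inv_pos.2 hb
  have h1 := integral_comp_mul_left_Ioi (fun r : ℝ => r ^ (α - 1) * f r) 0 hbi
  rw [mul_zero, inv_inv, smul_eq_mul] at h1
  have h2 : ∫ r in Ioi (0 : ℝ), r ^ (α - 1) * f (r / b) =
      ∫ r in Ioi (0 : ℝ), b ^ (α - 1) * ((b⁻¹ * r) ^ (α - 1) * f (b⁻¹ * r)) := by
    apply setIntegral_congr_fun measurableSet_Ioi
    intro r hr
    have hr' : (0 : ℝ) < r := hr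
    have h3 : b ^ (α - 1) * (b⁻¹ * r) ^ (α - 1) = r ^ (α - 1) := by
      rw [← Real.mul_rpow hb.le (by positivity), mul_inv_cancel_left₀ hb.ne']
    change r ^ (α - 1) * f (r / b) = b ^ (α - 1) * ((b⁻¹ * r) ^ (α - 1) * f (b⁻¹ * r))
    rw [← mul_assoc, h3, div_eq_inv_mul]
  rw [h2, integral_const_mul, h1, ← mul_assoc]
  congr 1
  rw [Real.rpow_sub_one hb.ne']
  field_simp

theorem integrable_scale (α : ℝ) (f : ℝ → ℝ) {b : ℝ} (hb : 0 < b) :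
    IntegrableOn (fun r => r ^ (α - 1) * f (r / b)) (Ioi 0) ↔
      IntegrableOn (fun r => r ^ (α - 1) * f r) (Ioi 0) := by
  have hbi : 0 < b⁻¹ := inv_pos.2 hb
  have h1 := integrableOn_Ioi_comp_mul_left_iff (fun r : ℝ => r ^ (α - 1) * f r) 0 hbi
  rw [mul_zero] at h1
  rw [← h1]
  have h4 : b ^ (α - 1) ≠ 0 := (Real.rpow_pos_of_pos hb _).ne'
  have h2 : IntegrableOn (fun r => r ^ (α - 1) * f (r / b)) (Ioi 0) ↔
      IntegrableOn (fun r => b ^ (α - 1) * ((b⁻¹ * r) ^ (α - 1) * f (b⁻¹ * r))) (Ioi 0) := by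
    apply integrableOn_congr_fun _ measurableSet_Ioi
    intro r hr
    have hr' : (0 : ℝ) < r := hr
    have h3 : b ^ (α - 1) * (b⁻¹ * r) ^ (α - 1) = r ^ (α - 1) := by
      rw [← Real.mul_rpow hb.le (by positivity), mul_inv_cancel_left₀ hb.ne']
    change r ^ (α - 1) * f (r / b) = b ^ (α - 1) * ((b⁻¹ * r) ^ (α - 1) * f (b⁻¹ * r))
    rw [← mul_assoc, h3, div_eq_inv_mul]
  rw [h2]
  constructor
  · intro h
    have := h.const_mul (b ^ (α - 1))⁻¹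
    refine this.congr (Filter.Eventually.of_forall fun r => ?_)
    change (b ^ (α - 1))⁻¹ * (b ^ (α - 1) * ((b⁻¹ * r) ^ (α - 1) * f (b⁻¹ * r))) =
      (b⁻¹ * r) ^ (α - 1) * f (b⁻¹ * r)
    rw [inv_mul_cancel_left₀ h4]
  · intro h
    exact h.const_mul _

/-- `In` of `(A ⊗ b, D ⊗ b)`, `b` diagonal -/
theorem In_kron_dg {α : ℝ} {A D : Matrix ι ι ℂ} (h : IsPair A D) {b : κ → ℝ}
    (hb : ∀ k, 0 < b k) {n : ℕ} (hn : Even n) :
    In α (A ⊗ₖ dg b) (D ⊗ₖ dg b) n = (∑ k, b k ^ α) * In α A D n := by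
  have e : In α (A ⊗ₖ dg b) (D ⊗ₖ dg b) n =
      ∫ r in Ioi (0 : ℝ), ∑ k, r ^ (α - 1) * tn A D n (r / b k) := by
    unfold In
    apply setIntegral_congr_fun measurableSet_Ioi
    intro r hr
    have hr' : (0 : ℝ) < r := hr
    change r ^ (α - 1) * tn (A ⊗ₖ dg b) (D ⊗ₖ dg b) n r = _
    rw [tn_kron_dg h.pos D hb n hr'.le, Finset.mul_sum]
  rw [e]
  by_cases hi : IntegrableOn (fun r => r ^ (α - 1) * tn A D n r) (Ioi 0)
  · have hk : ∀ k, IntegrableOn (fun r => r ^ (α - 1) * tn A D n (r / b k)) (Ioi 0) :=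
      fun k => (integrable_scale α (tn A D n) (hb k)).2 hi
    rw [integral_finsetSum _ fun k _ => hk k, Finset.sum_mul]
    exact Finset.sum_congr rfl fun k _ => integral_scale α (tn A D n) (hb k)
  · have h0 : In α A D n = 0 := integral_undef hi
    rw [h0, mul_zero]
    by_cases hκ : Nonempty κ
    · apply integral_undef
      intro hI
      obtain ⟨k₀⟩ := hκ
      apply hi
      rw [← integrable_scale α (tn A D n) (hb k₀)]
      refine Integrable.mono' hI ?_ ?_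
      · apply ContinuousOn.aestronglyMeasurable _ measurableSet_Ioi
        apply ContinuousOn.mul
        · intro r hr
          exact (Real.continuousAt_rpow_const _ _ (Or.inl (ne_of_gt hr))).continuousWithinAt
        · have hc := continuousOn_tn h.pos n (D := D)
          refine hc.comp (continuous_id.div_const _).continuousOn ?_
          intro r hr
          have hr' : (0 : ℝ) < r := hr
          have := hb k₀
          exact div_pos hr' this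
      · refine (ae_restrict_iff' measurableSet_Ioi).2 (Filter.Eventually.of_forall fun r hr => ?_)
        have hr' : (0 : ℝ) < r := hr
        have hpos : ∀ k, 0 ≤ r ^ (α - 1) * tn A D n (r / b k) := fun k =>
          mul_nonneg (Real.rpow_nonneg hr'.le _)
            (tn_nonneg' h (div_nonneg hr'.le (hb k).le) hn)
        rw [Real.norm_eq_abs, abs_of_nonneg (hpos k₀)]
        exact Finset.single_le_sum (f := fun k => r ^ (α - 1) * tn A D n (r / b k))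
          (fun k _ => hpos k) (Finset.mem_univ k₀)
    · have : IsEmpty κ := not_nonempty_iff.1 hκ
      simp

theorem ten_one (α : ℝ) (A₂ : Matrix κ κ ℂ) (hA₂ : A₂.PosDef) :
    ∃ T : ℝ, ∀ (ι : Type) [Fintype ι] [DecidableEq ι] (A₁ D₁ : Matrix ι ι ℂ), IsPair A₁ D₁ →
      ∀ m : ℕ, In α (A₁ ⊗ₖ A₂) (D₁ ⊗ₖ A₂) (2 * (m + 1)) = T * In α A₁ D₁ (2 * (m + 1)) := by
  obtain ⟨U, b, hU, hU', hb, hA⟩ := exists_diag A₂ hA₂
  refine ⟨∑ k, b k ^ α, ?_⟩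
  intro ι _ _ A₁ D₁ h m
  rw [hA, In_kron_conj α A₁ D₁ U (dg b) (dg b) hU hU']
  exact In_kron_dg h hb ⟨m + 1, by ring⟩

theorem ten_two (R₁ D₁ : Matrix ι ι ℂ) (R₂ D₂ : Matrix κ κ ℂ) (e : ℝ) :
    GG R₁ D₁ R₂ D₂ e + GG R₁ (-D₁) R₂ D₂ e =
      2 * LD (R₁ ⊗ₖ R₂) (D₁ ⊗ₖ R₂) e - 2 * LD (R₁ ⊗ₖ R₂) (D₁ ⊗ₖ D₂) e := by
  have h1 : (-D₁) ⊗ₖ D₂ = -(D₁ ⊗ₖ D₂) := by
    ext i j; simp [Matrix.kroneckerMap_apply]
  have h2 : (R₁ + D₁) ⊗ₖ R₂ = R₁ ⊗ₖ R₂ + D₁ ⊗ₖ R₂ := by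
    ext i j; simp [Matrix.kroneckerMap_apply, add_mul]
  have h3 : (R₁ - D₁) ⊗ₖ R₂ = R₁ ⊗ₖ R₂ - D₁ ⊗ₖ R₂ := by
    ext i j; simp [Matrix.kroneckerMap_apply, sub_mul]
  unfold GG LD
  rw [h1, ← sub_eq_add_neg, ← sub_eq_add_neg, sub_neg_eq_add, h2, h3]
  ring

/-- block TEN -/
theorem ten :
    (∀ α : ℝ, 0 < α → ∀ (κ : Type) [Fintype κ] [DecidableEq κ] (A₂ : Matrix κ κ ℂ), A₂.PosDef →
      ∃ T : ℝ, ∀ (ι : Type) [Fintype ι] [DecidableEq ι] (A₁ D₁ : Matrix ι ι ℂ), IsPair A₁ D₁ →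
        ∀ m : ℕ, In α (A₁ ⊗ₖ A₂) (D₁ ⊗ₖ A₂) (2 * (m + 1)) = T * In α A₁ D₁ (2 * (m + 1))) ∧
    (∀ (ι κ : Type) [Fintype ι] [DecidableEq ι] [Fintype κ] [DecidableEq κ]
      (R₁ D₁ : Matrix ι ι ℂ) (R₂ D₂ : Matrix κ κ ℂ) (e : ℝ),
      GG R₁ D₁ R₂ D₂ e + GG R₁ (-D₁) R₂ D₂ e =
        2 * LD (R₁ ⊗ₖ R₂) (D₁ ⊗ₖ R₂) e - 2 * LD (R₁ ⊗ₖ R₂) (D₁ ⊗ₖ D₂) e) :=
  ⟨fun α _ κ _ _ A₂ h => ten_one α A₂ h, fun _ _ _ _ _ _ R₁ D₁ R₂ D₂ e => ten_two R₁ D₁ R₂ D₂ e⟩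

end Pool.Agent.A1W
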